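import Pool.Agent.ZRT.StmtsA

/-!
# ZRT row XHC: Hessian comparison (helper80)
-/

noncomputable section

open scoped ContDiff Topology RealInnerProductSpace
open Set MeasureTheory

namespace Pool.Agent.ZRT.H80

open Pool.Agent.RF Pool.Agent.MVS

/-- the final algebra -/
theorem xhc_alg {R g q D L c sn : ℝ} (hR : 0 < R) (hsn : 0 < sn) (hq : g = q * R)
    (h : q ^ 2 + R * (c / sn) * (L - q ^ 2) ≤ D) :
    -(c * q) * q + -sn * ((D * R - g * q) / R ^ 2) ≤ -L * c := by
  have h1 : sn * (q ^ 2 + R * (c / sn) * (L - q ^ 2)) ≤ sn * D :=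
    mul_le_mul_of_nonneg_left h hsn.le
  have h2 : sn * (q ^ 2 + R * (c / sn) * (L - q ^ 2)) = sn * q ^ 2 + R * c * (L - q ^ 2) := by
    field_simp
  rw [h2] at h1
  have h3 : (D * R - g * q) / R ^ 2 = (D - q ^ 2) / R := by
    rw [hq]
    field_simp
  rw [h3]
  have h4 : c * (L - q ^ 2) ≤ sn * ((D - q ^ 2) / R) := by
    rw [← mul_div_assoc, le_div_iff₀ hR]
    nlinarith [h1]
  nlinarith [h4]

/-- **XHC** -/
theorem xhc (hb1 : Xb1Statement) (ha : XhaStatement) (hb : XhbStatement) : XhcStatement := by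
  intro G ex hG hK hex m hm I y l hI hy hy0 hgeo hsp
  obtain ⟨hsm, -, -, -, -, -⟩ := hb1 G ex hG hex m hm
  have hpos : ∀ s ∈ I, 0 < G m (y s) (y s) := fun s hs => hG.metric.pos m hm _ (hy0 s hs).1
  have hyd : ∀ s ∈ I, HasDerivAt y (deriv y s) s := fun s hs =>
    ((hy.contDiffAt (hI.mem_nhds hs)).differentiableAt (by simp)).hasDerivAt
  have hr0 : ∀ s ∈ I, 0 < nm G m (y s) := fun s hs => Real.sqrt_pos.mpr (hpos s hs)
  have hE : ∀ s ∈ I, HasDerivAt (fun r => G m (y r) (y r)) (2 * G m (y s) (deriv y s)) s := by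
    intro s hs
    have h1 := ((G m).hasFDerivAt.comp_hasDerivAt s (hyd s hs)).clm_apply (hyd s hs)
    have h2 : (G m (deriv y s)) (y s) + ((G m) ∘ y) s (deriv y s) =
        2 * G m (y s) (deriv y s) := by
      rw [hG.metric.symm m hm (deriv y s) (y s)]
      show G m (y s) (deriv y s) + G m (y s) (deriv y s) = _
      ring
    rw [← h2]
    exact h1
  have hr : ∀ s ∈ I, HasDerivAt (fun r => nm G m (y r))
      (G m (y s) (deriv y s) / nm G m (y s)) s := by
    intro s hs
    have h1 := (hE s hs).sqrt (hpos s hs).ne'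
    have h2 : 2 * G m (y s) (deriv y s) / (2 * Real.sqrt (G m (y s) (y s))) =
        G m (y s) (deriv y s) / nm G m (y s) := by
      rw [mul_div_mul_left _ _ (two_ne_zero)]
      rfl
    rw [← h2]
    exact h1
  have hg : ∀ s ∈ I, HasDerivAt (fun r => G m (y r) (deriv y r))
      (G (ex (m, y s)) (DJf G ex m (y s) (deriv y s) 1) (Jf ex m (y s) (deriv y s) 1)) s :=
    fun s hs => ha G ex hG hex m hm I y hI hy hgeo s hs
  have hch : ∀ s ∈ I, deriv (fun r => ex (m, y r)) s = dE ex m (y s) (deriv y s) := by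
    intro s hs
    have h1 : HasFDerivAt (fun u : E5 => ex (m, u)) (fderiv ℝ (fun u : E5 => ex (m, u)) (y s))
        (y s) := ((hsm.differentiable (by simp)) (y s)).hasFDerivAt
    exact (h1.comp_hasDerivAt s (hyd s hs)).deriv
  refine ⟨fun s => -Real.sin (nm G m (y s)) * (G m (y s) (deriv y s) / nm G m (y s)),
    fun s => -(Real.cos (nm G m (y s)) * (G m (y s) (deriv y s) / nm G m (y s))) *
        (G m (y s) (deriv y s) / nm G m (y s)) +
      -Real.sin (nm G m (y s)) *
        ((G (ex (m, y s)) (DJf G ex m (y s) (deriv y s) 1) (Jf ex m (y s) (deriv y s) 1) *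
          nm G m (y s) - G m (y s) (deriv y s) * (G m (y s) (deriv y s) / nm G m (y s))) /
          nm G m (y s) ^ 2), ?_⟩
  intro s hs
  refine ⟨(hr s hs).cos, ?_, ?_⟩
  · exact ((hr s hs).sin.neg).mul ((hg s hs).div (hr s hs) (hr0 s hs).ne')
  · have h1 := hb G ex hG hK hex m hm (y s) (deriv y s) (hr0 s hs) (hy0 s hs).2
    have h2 : G (ex (m, y s)) (dE ex m (y s) (deriv y s)) (dE ex m (y s) (deriv y s)) = l ^ 2 := by
      rw [← hch s hs]
      exact hsp s hs
    rw [h2, Real.cot_eq_cos_div_sin] at h1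
    exact xhc_alg (hr0 s hs) (Real.sin_pos_of_pos_of_lt_pi (hr0 s hs) (hy0 s hs).2)
      (by field_simp [(hr0 s hs).ne']) h1

end Pool.Agent.ZRT.H80
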